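import Pool.Agent.helper70.LZ.SpecW
import Pool.Agent.helper59.FI.Base

/-!
# Row lw:WEX: a character of `C_G(z)` with `az ψ z ≠ 0` for all `ψ` in the block
-/

set_option autoImplicit false

namespace Pool.Agent.LE

open Pool.Agent.helper58.DC Pool.Agent.DI Pool.Agent.GR Pool.Agent.OB Pool.Agent.DR Pool.Agent.FI Pool.Agent.FI3 Pool.Agent.FI4

theorem WEX_reg {G : Type} [Group G] {p : ℕ} (hp : p.Prime) {a s : G} (has : s * a = a * s) (ha : ¬ p ∣ orderOf a)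
    (hs : PEl p s) (h : ¬ p ∣ orderOf (a * s)) : s = 1 := by
  obtain ⟨k, hk⟩ := hs
  have h1 : orderOf s ∣ p ^ k := orderOf_dvd_of_pow_eq_one hk
  obtain ⟨j, -, hj⟩ := (Nat.dvd_prime_pow hp).1 h1
  have hc : Commute a s := has.symm
  have hcop : Nat.Coprime (orderOf a) (orderOf s) := by
    rw [hj]
    exact Nat.Coprime.pow_right j ((Nat.Prime.coprime_iff_not_dvd hp).2 ha).symm
  have h2 := hc.orderOf_mul_eq_mul_orderOf_of_coprime hcop
  rw [h2] at h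
  by_contra hs1
  have hj0 : j ≠ 0 := by
    rintro rfl
    rw [pow_zero] at hj
    exact hs1 (orderOf_eq_one_iff.1 hj)
  refine h (Dvd.dvd.mul_left ?_ _)
  rw [hj]
  exact dvd_pow_self p hj0

theorem WEX_cz {G : Type} [Group G] {p : ℕ} (hp : p.Prime) {z x : G} (hzx : z * x = x * z) (hz : PEl p z)
    (hx : PReg p x) : Cz (Cz (⊤ : Subgroup G) z) x = Cz (⊤ : Subgroup G) (z * x) := by
  ext g
  rw [mem_Cz, mem_Cz, mem_Cz]
  constructor
  · rintro ⟨⟨-, h1⟩, h2⟩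
    refine ⟨Subgroup.mem_top g, ?_⟩
    rw [mul_assoc, h2, ← mul_assoc, h1, mul_assoc]
  · rintro ⟨-, h⟩
    obtain ⟨k, hk⟩ := hz
    have hcop : Nat.Coprime (p ^ k) (orderOf x) := Nat.Coprime.pow_left k ((Nat.Prime.coprime_iff_not_dvd hp).2 hx)
    obtain ⟨a, ha1, ha2⟩ := Nat.chineseRemainder hcop 1 0
    have hc : Commute z x := hzx
    have h1 : (z * x) ^ a = z := by
      rw [hc.mul_pow]
      have e1 : z ^ a = z := by
        have h3 : z ^ a = z ^ 1 := pow_eq_pow_iff_modEq.2 (ha1.of_dvd (orderOf_dvd_of_pow_eq_one hk))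
        rwa [pow_one] at h3
      have e2 : x ^ a = 1 := orderOf_dvd_iff_pow_eq_one.1 ((Nat.modEq_zero_iff_dvd).1 ha2)
      rw [e1, e2, mul_one]
    have h2 : Commute (z * x) g := h
    have h3 : Commute z g := by
      have h4 := h2.pow_left a
      rwa [h1] at h4
    have h5 : Commute x g := by
      have h6 : x = z⁻¹ * (z * x) := by group
      rw [h6]
      exact h3.inv_left.mul_left h2
    exact ⟨⟨Subgroup.mem_top g, h3⟩, h5⟩

theorem WEX_sum {G : Type} [Group G] [Finite G] (p : ℕ) (hp : p.Prime) (K : Subgroup G) (z x : G) (hKz : ∀ k ∈ K, z * k = k * z)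
    (hxK : x ∈ K) (hx : PReg p x) (c : (G → ℂ) → ℂ) (n : ℕ) (hcx : ∑ᶠ η ∈ IrrOn K, c η * η x⁻¹ = (n : ℂ))
    (hcy : ∀ y ∈ K, ∑ᶠ η ∈ IrrOn K, c η * η y ≠ 0 → ∃ k ∈ K, ∃ s ∈ K, PEl p s ∧ s * x⁻¹ = x⁻¹ * s ∧
      k * y * k⁻¹ = x⁻¹ * s) (ψ : G → ℂ) (hψ : ψ ∈ IrrOn (⊤ : Subgroup G)) :
    (Nat.card (Cz K x) : ℂ) * ∑ᶠ η ∈ IrrOn K, c η * az p K η ψ z = (n : ℂ) * ψ (z * x) := by
  classical
  have hfin : (IrrOn K).Finite := IrrOn_fin K
  have hRfin : {v : G | v ∈ K ∧ PReg p v}.Finite := Set.toFinite _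
  have hK0 : (Nat.card K : ℂ) ≠ 0 := by exact_mod_cast Nat.card_pos.ne'
  have hconjord : ∀ k v : G, orderOf (k * v * k⁻¹) = orderOf v := by
    intro k v
    have h := orderOf_injective (MulAut.conj k).toMonoidHom (MulAut.conj k).injective v
    have h1 : (MulAut.conj k).toMonoidHom v = k * v * k⁻¹ := rfl
    rwa [h1] at h
  obtain ⟨Φ, hΦ⟩ : ∃ Φ : G → ℂ, Φ = fun y => ∑ᶠ η ∈ IrrOn K, c η * η y := ⟨_, rfl⟩
  have hΦc : ∀ k ∈ K, ∀ y, Φ (k * y * k⁻¹) = Φ y := by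
    intro k hk y
    rw [hΦ]
    exact finsum_mem_congr rfl fun η hη => by rw [IrrOn_conj hη hk]
  have hΦx : Φ x⁻¹ = n := by
    rw [hΦ]
    exact hcx
  have hΦv : ∀ v : G, v ∈ K ∧ PReg p v → Φ v⁻¹ = (n : ℂ) * cls K x v := by
    rintro v ⟨hvK, hv⟩
    by_cases h : ∃ l ∈ K, l * x * l⁻¹ = v
    · rw [cls_one h, mul_one]
      obtain ⟨l, hl, rfl⟩ := h
      have e : (l * x * l⁻¹)⁻¹ = l * x⁻¹ * l⁻¹ := by group
      rw [e, hΦc l hl, hΦx]
    · rw [cls_zero h, mul_zero]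
      by_contra hne
      have hne' : ∑ᶠ η ∈ IrrOn K, c η * η v⁻¹ ≠ 0 := by
        rw [hΦ] at hne
        exact hne
      obtain ⟨k, hk, s, hs, hsp, hsx, e⟩ := hcy v⁻¹ (K.inv_mem hvK) hne'
      have h1 : ¬ p ∣ orderOf (x⁻¹ * s) := by
        rw [← e, hconjord, orderOf_inv]
        exact hv
      have h2 : s = 1 := WEX_reg hp hsx (by rw [orderOf_inv]; exact hx) hsp h1
      rw [h2, mul_one] at e
      refine h ⟨k⁻¹, K.inv_mem hk, ?_⟩
      have e2 : x = (k * v⁻¹ * k⁻¹)⁻¹ := by rw [e, inv_inv]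
      rw [e2]
      group
  have e1 : ∑ᶠ η ∈ IrrOn K, c η * az p K η ψ z = (n : ℂ) * (∑ᶠ v, cls K x v * ψ (z * v)) / Nat.card K := by
    have e2 : ∀ η : G → ℂ, c η * az p K η ψ z =
        (∑ v ∈ hRfin.toFinset, ψ (z * v) * (c η * η v⁻¹)) / Nat.card K := by
      intro η
      unfold az
      rw [finsum_mem_eq_finite_toFinset_sum _ hRfin, mul_div_assoc', Finset.mul_sum]
      congr 1
      refine Finset.sum_congr rfl fun v _ => ?_
      ring
    rw [finsum_mem_eq_finite_toFinset_sum _ hfin, Finset.sum_congr rfl (fun η _ => e2 η), ← Finset.sum_div,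
      Finset.sum_comm]
    congr 1
    have e3 : ∀ v ∈ hRfin.toFinset, ∑ η ∈ hfin.toFinset, ψ (z * v) * (c η * η v⁻¹) =
        (n : ℂ) * (cls K x v * ψ (z * v)) := by
      intro v hv
      rw [Set.Finite.mem_toFinset] at hv
      rw [← Finset.mul_sum, ← finsum_mem_eq_finite_toFinset_sum (fun η => c η * η v⁻¹) hfin]
      have h1 := hΦv v hv
      rw [hΦ] at h1
      have h2 : ∑ᶠ η ∈ IrrOn K, c η * η v⁻¹ = (n : ℂ) * cls K x v := h1
      rw [h2]
      ring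
    rw [Finset.sum_congr rfl e3, ← Finset.mul_sum]
    congr 1
    symm
    refine finsum_eq_sum_of_support_subset _ fun v hv => ?_
    rw [Function.mem_support] at hv
    have h1 : cls K x v ≠ 0 := fun h => hv (by rw [h, zero_mul])
    obtain ⟨l, hl, rfl⟩ := cls_ne h1
    rw [Set.Finite.coe_toFinset]
    refine ⟨K.mul_mem (K.mul_mem hl hxK) (K.inv_mem hl), ?_⟩
    unfold PReg
    rw [hconjord]
    exact hx
  have e4 : (Nat.card (Cz K x) : ℂ) * ∑ᶠ v, cls K x v * ψ (z * v) = Nat.card K * ψ (z * x) := by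
    rw [sum_cls K x (fun v => ψ (z * v))]
    have h1 : ∀ l ∈ (K : Set G), ψ (z * (l * x * l⁻¹)) = ψ (z * x) := by
      intro l hl
      have h2 : z * (l * x * l⁻¹) = l * (z * x) * l⁻¹ := by
        have h3 := hKz l hl
        calc z * (l * x * l⁻¹) = (z * l) * x * l⁻¹ := by group
          _ = (l * z) * x * l⁻¹ := by rw [h3]
          _ = _ := by group
      rw [h2]
      exact IrrOn_conj hψ (Subgroup.mem_top l) _
    rw [finsum_mem_congr rfl h1, finsum_mem_eq_finite_toFinset_sum _ (Set.toFinite (K : Set G)), Finset.sum_const,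
      nsmul_eq_mul]
    congr 2
    rw [← Set.ncard_eq_toFinset_card (K : Set G) (Set.toFinite (K : Set G))]
    rfl
  rw [e1]
  have e5 : (Nat.card (Cz K x) : ℂ) * ((n : ℂ) * (∑ᶠ v, cls K x v * ψ (z * v)) / Nat.card K) =
      (n : ℂ) * ((Nat.card (Cz K x) : ℂ) * ∑ᶠ v, cls K x v * ψ (z * v)) / Nat.card K := by ring
  rw [e5, e4]
  field_simp

theorem WEX (hZL1 : ZL1_stmt) (hWTR : WTR_stmt) (hWSM : WSM_stmt) : WEX_stmt := by
  classical
  intro p M hS G _ _ χ hχ z x hzx hz hx hne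
  have hp := hS.pr
  have hxK : x ∈ Cz (⊤ : Subgroup G) z := mem_Cz.2 ⟨Subgroup.mem_top x, hzx⟩
  obtain ⟨c, n, hn, hci, hcx, hcy⟩ := hZL1 p hp G (Cz (⊤ : Subgroup G) z) x⁻¹ (Subgroup.inv_mem _ hxK) (by
    rw [orderOf_inv]
    exact hx)
  have hfin : (IrrOn (Cz (⊤ : Subgroup G) z)).Finite := IrrOn_fin _
  have hW := hWTR p G z
  choose! W hW1 hW2 hW3 using hW
  have hG0 : (Nat.card G : ℂ) ≠ 0 := by exact_mod_cast Nat.card_pos.ne'
  have hC0 : (Nat.card (Cz (⊤ : Subgroup G) (z * x)) : ℂ) ≠ 0 := by exact_mod_cast Nat.card_pos.ne'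
  have hχ1 := IrrOn_ne hχ
  have key : ∑ᶠ η ∈ IrrOn (Cz (⊤ : Subgroup G) z), c η * cc χ (W η) =
      (n : ℂ) * cc χ (cls (⊤ : Subgroup G) (z * x)) := by
    have h1 := WEX_sum p hp (Cz (⊤ : Subgroup G) z) z x (fun k hk => (mem_Cz.1 hk).2) hxK hx c n hcx hcy χ hχ
    rw [WEX_cz hp hzx hz hx] at h1
    have h2 := cc_cls hχ (z * x)
    rw [Subgroup.card_top] at h2
    have h3 : ∑ᶠ η ∈ IrrOn (Cz (⊤ : Subgroup G) z), c η * cc χ (W η) =
        (Nat.card G : ℂ) / χ 1 * ∑ᶠ η ∈ IrrOn (Cz (⊤ : Subgroup G) z), c η * az p (Cz (⊤ : Subgroup G) z) η χ z := by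
      rw [finsum_mem_eq_finite_toFinset_sum _ hfin, finsum_mem_eq_finite_toFinset_sum _ hfin, Finset.mul_sum]
      refine Finset.sum_congr rfl fun η hη => ?_
      rw [Set.Finite.mem_toFinset] at hη
      rw [hW3 η hη χ hχ]
      ring
    rw [h3]
    refine mul_left_cancel₀ hC0 ?_
    calc (Nat.card (Cz (⊤ : Subgroup G) (z * x)) : ℂ) * ((Nat.card G : ℂ) / χ 1 *
          ∑ᶠ η ∈ IrrOn (Cz (⊤ : Subgroup G) z), c η * az p (Cz (⊤ : Subgroup G) z) η χ z) =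
        (Nat.card G : ℂ) / χ 1 * ((Nat.card (Cz (⊤ : Subgroup G) (z * x)) : ℂ) *
          ∑ᶠ η ∈ IrrOn (Cz (⊤ : Subgroup G) z), c η * az p (Cz (⊤ : Subgroup G) z) η χ z) := by ring
      _ = (Nat.card G : ℂ) / χ 1 * ((n : ℂ) * χ (z * x)) := by rw [h1]
      _ = (n : ℂ) * (Nat.card G * (χ (z * x) / χ 1)) := by ring
      _ = (n : ℂ) * ((Nat.card (Cz (⊤ : Subgroup G) (z * x)) : ℂ) * cc χ (cls (⊤ : Subgroup G) (z * x))) := by
        rw [h2]
      _ = _ := by ring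
  have hex : ∃ η ∈ IrrOn (Cz (⊤ : Subgroup G) z), ¬ InM M (cc χ (W η)) := by
    by_contra hall
    push Not at hall
    have h1 : InM M ((n : ℂ) * cc χ (cls (⊤ : Subgroup G) (z * x))) := by
      rw [← key]
      exact InM.finsum_mem hS fun η hη => InM.mul_left hS (IntAt.of_isIntegral hS (hci η)) (hall η hη)
    rcases InM.or hS (IntAt.natCast hS n) (IntAt.of_isIntegral hS (cc_cls_int le_rfl hχ (z * x))) h1 with h2 | h2
    · exact hn ((InM.natCast hS n).1 h2)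
    · exact hne h2
  obtain ⟨η₀, hη₀, hnot⟩ := hex
  refine ⟨η₀, hη₀, ?_, fun ψ hψ haz => ?_⟩
  · by_contra hSB
    have h1 := hWSM p M hS G z hz η₀ hη₀ χ hχ hSB
    apply hnot
    rw [hW3 η₀ hη₀ χ hχ, h1, mul_zero, zero_div]
    exact InM.zero hS
  · have h1 : cc ψ (W η₀) = 0 := by
      rw [hW3 η₀ hη₀ ψ hψ.1, haz, mul_zero, zero_div]
    have h2 := InM.of_mcong hS (hψ.2 (W η₀) (hW1 η₀ hη₀) (hW2 η₀ hη₀))
    rw [h1, zero_sub] at h2
    apply hnot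
    have h3 := h2.neg
    rwa [neg_neg] at h3

end Pool.Agent.LE
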