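import Pool.Agent.helper70.LZ.SpecW
import Pool.Agent.helper59.FI.Base
import Pool.Agent.helper43.LZ.ZL4

/-!
# Row lw:WZ4: `|C_K(y)|_p EE η η'` is integral at `M`
-/

set_option autoImplicit false

namespace Pool.Agent.LE

open Pool.Agent.helper58.DC Pool.Agent.DI Pool.Agent.GR Pool.Agent.OB Pool.Agent.DR Pool.Agent.FI Pool.Agent.FI3 Pool.Agent.FI4

theorem WZ4 (hC3 : C3_stmt) (hB2 : B2_stmt) (_hCVF : CVF_stmt) : WZ4_stmt := by
  classical
  intro p M hS G _ _ K y _ η hηI hne η' hη'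
  obtain ⟨⟨n, hn0, hn1, -⟩, -, hint, -⟩ := (hB2 G K).2 η hηI
  obtain ⟨-, hconj', hint', -⟩ := (hB2 G K).2 η' hη'
  have hp := hS.pr
  have hcard : pp p (Cz K y) = p ^ padicValNat p (Nat.card (Cz K y)) := rfl
  set a : ℕ := padicValNat p (Nat.card (Cz K y)) with ha
  have := Fact.mk hp
  obtain ⟨c, hc⟩ : p ^ a ∣ Nat.card (Cz K y) := by
    rw [ha]
    exact pow_padicValNat_dvd
  have hCpos : 0 < Nat.card (Cz K y) := Nat.card_pos
  have hcp : ¬ p ∣ c := by
    rintro ⟨c', hc'⟩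
    have hc0 : c' ≠ 0 := by
      rintro rfl
      rw [hc', mul_zero, mul_zero] at hc
      omega
    have h1 : padicValNat p (Nat.card (Cz K y)) = a + (1 + padicValNat p c') := by
      rw [hc, hc', padicValNat.mul (pow_ne_zero _ hp.ne_zero) (mul_ne_zero hp.ne_zero hc0),
        padicValNat.prime_pow, padicValNat.mul hp.ne_zero hc0, padicValNat.self hp.one_lt]
    omega
  have hnC : (n : ℂ) ≠ 0 := by exact_mod_cast hn0.ne'
  have hLC : (Nat.card K : ℂ) ≠ 0 := by
    have h : 0 < Nat.card K := Nat.card_pos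
    exact_mod_cast h.ne'
  have hccI : IsIntegral ℤ (cc η (cls K y)) := cc_cls_int le_rfl hηI y
  have h2 := cc_cls hηI y
  rw [hn1, hc] at h2
  push_cast at h2
  have hcI : IsIntegral ℤ ((c : ℂ) * cc η (cls K y)) := by
    have h := isIntegral_algebraMap (R := ℤ) (A := ℂ) (x := (c : ℤ))
    have h' : IsIntegral ℤ (c : ℂ) := by simpa using h
    exact h'.mul hccI
  have hcM : ¬ InM M ((c : ℂ) * cc η (cls K y)) := by
    intro h5
    rcases InM.or hS (IntAt.natCast hS c) (IntAt.of_isIntegral hS hccI) h5 with h6 | h6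
    · exact hcp ((InM.natCast hS c).1 h6)
    · exact hne h6
  have hA : IntAt M ((pp p (Cz K y) : ℂ) * n / Nat.card K) := by
    refine ⟨⟨η y, hint y⟩, ⟨_, hcI⟩, fun h => hcM (InM.coe hS h), ?_⟩
    change (pp p (Cz K y) : ℂ) * n / Nat.card K * ((c : ℂ) * cc η (cls K y)) = η y
    rw [hcard]
    push_cast
    have h3 : (n : ℂ) * (η y / n) = η y := mul_div_cancel₀ _ hnC
    have h4 : (p : ℂ) ^ a * n / Nat.card K * ((c : ℂ) * cc η (cls K y)) =
        n * ((p : ℂ) ^ a * c * cc η (cls K y)) / Nat.card K := by ring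
    rw [h4, h2, ← mul_assoc, mul_comm (n : ℂ), mul_assoc, h3, mul_div_assoc, mul_comm, div_mul_cancel₀ _ hLC]
  have hK : IsIntegral ℤ (cc η (kap p K η')) :=
    (hC3 G).1 K η hηI _ (ZL4_kap p K η' hconj') (ZL4_kapint p K η' hint')
  have hfin : (pp p (Cz K y) : ℂ) * EE p K η η' =
      (pp p (Cz K y) : ℂ) * n / Nat.card K * cc η (kap p K η') := by
    rw [ZL4_cc, hn1]
    unfold EE
    field_simp
  rw [hfin]
  exact hA.mul hS (IntAt.of_isIntegral hS hK)

end Pool.Agent.LE
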